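import Pool.Agent.helper19.MX.SpecC

/-! # Row FBR of project MX: the function field -/

set_option linter.unusedVariables false

namespace MX

open Pool.Agent.helper53.AU AN
open scoped Classical Topology IntermediateField

noncomputable section

theorem FBR_pow (k : Type) [Field k] (n : ℕ) : (mono 1 1 : LS k) ^ n = mono (n : ℤ) 1 := by
  induction n with
  | zero =>
    rw [pow_zero]
    exact (map_one LS.C).symm
  | succ n ih =>
    rw [pow_succ, ih, mono_mul_mono, mul_one]
    push_cast
    rfl

theorem FBR_mono (k : Type) [Field k] : Transcendental k (mono 1 1 : LS k) := by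
  rw [transcendental_iff]
  intro p hp
  ext n
  have h1 : cf (Polynomial.aeval (mono 1 1 : LS k) p) (n : ℤ) = p.coeff n := by
    rw [Polynomial.aeval_eq_sum_range, cf_sum]
    have h2 : ∀ i ∈ Finset.range (p.natDegree + 1),
        cf (p.coeff i • (mono 1 1 : LS k) ^ i) (n : ℤ) = if n = i then p.coeff i else 0 := by
      intro i _
      rw [FBR_pow, cf_smul, cf_mono]
      by_cases h : n = i
      · subst h
        simp
      · rw [if_neg h, if_neg (by exact_mod_cast h), mul_zero]
    rw [Finset.sum_congr rfl h2, Finset.sum_ite_eq]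
    split_ifs with h3
    · rfl
    · rw [Finset.mem_range, not_lt] at h3
      exact (Polynomial.coeff_eq_zero_of_natDegree_lt h3).symm
  rw [← h1, hp, cf_zero, Polynomial.coeff_zero]

theorem FBR_tr : Transcendental kk (iO sL) := by
  have e1 : iO sL = algebraMap (LS kk) Om (mono 1 1) := by
    change algebraMap (LS kk) Om (mp (algebraMap (ZMod 2) kk) sv) = _
    congr 1
    unfold sv
    apply LS.ext
    intro n
    rw [cf_mp, cf_mono, cf_mono]
    split_ifs
    · exact map_one _
    · exact map_zero _
  rw [e1]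
  exact (transcendental_algebraMap_iff (algebraMap (LS kk) Om).injective).2 (FBR_mono kk)

theorem FBR_two : (2 : Om) = 0 := by
  have h1 : (2 : ZMod 2) = 0 := by decide
  have h2 := congrArg (algebraMap (ZMod 2) kk) h1
  rw [map_zero, map_ofNat] at h2
  have h3 := congrArg (algebraMap kk Om) h2
  rw [map_zero, map_ofNat] at h3
  exact h3

theorem FBR_sep (ys : Om) (h : ys ^ 2 + ys = iO thL) :
    IsSeparable (Subfield.closure ({iO sL} : Set Om)) ys := by
  have hs : iO sL ∈ Subfield.closure ({iO sL} : Set Om) := Subfield.subset_closure (Set.mem_singleton _)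
  have hth : iO thL ∈ Subfield.closure ({iO sL} : Set Om) := by
    have : iO thL = ((iO sL)⁻¹) ^ 3 := by
      unfold thL
      rw [map_pow, map_inv₀]
    rw [this]
    exact pow_mem (inv_mem hs) 3
  set F₀ := Subfield.closure ({iO sL} : Set Om) with hF₀
  let t : F₀ := ⟨iO thL, hth⟩
  let p : Polynomial F₀ := Polynomial.X ^ 2 + Polynomial.X - Polynomial.C t
  have h2 : (2 : F₀) = 0 := by
    apply Subtype.ext
    exact FBR_two
  have hp : p.Separable := by
    have hd : Polynomial.derivative p = 1 := by
      have e : Polynomial.derivative p = Polynomial.C (2 : F₀) * Polynomial.X + 1 := by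
        simp only [p, Polynomial.derivative_sub, Polynomial.derivative_add, Polynomial.derivative_X_pow,
          Polynomial.derivative_X, Polynomial.derivative_C]
        simp
      rw [e, h2, map_zero, zero_mul, zero_add]
    rw [Polynomial.separable_def, hd]
    exact isCoprime_one_right
  have hroot : Polynomial.aeval ys p = 0 := by
    simp only [p, map_sub, map_add, map_pow, Polynomial.aeval_X, Polynomial.aeval_C]
    have : algebraMap F₀ Om t = iO thL := rfl
    rw [this, h, sub_self]
  exact hp.of_dvd (minpoly.dvd F₀ ys hroot)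

/-- an automorphism acts on the coefficients as the inverse of the power map, and its inverse as the power map -/
theorem FBR_symm (n : ℕ) (α : Om ≃+* Om)
    (h : ∀ c : kk, ∃ c' : kk, α (algebraMap kk Om c) = algebraMap kk Om c' ∧ c' ^ (4 ^ n) = c) (c : kk) :
    α.symm (algebraMap kk Om c) = algebraMap kk Om (c ^ (4 ^ n)) := by
  obtain ⟨c', h1, h2⟩ := h (c ^ (4 ^ n))
  have h3 : c' = c := by
    have hch : CharP kk 2 := inferInstance
    have h4 : (4 : ℕ) ^ n = 2 ^ (2 * n) := by rw [pow_mul]; norm_num
    rw [h4] at h2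
    exact iterateFrobenius_inj kk 2 (2 * n) (by rw [iterateFrobenius_def, iterateFrobenius_def]; exact h2)
  rw [RingEquiv.symm_apply_eq, h1, h3]

theorem FBR (hSEP : SEP_stmt) (hLEX : LEX_stmt) (hGCL : GCL_stmt) : FBR_stmt := by
  intro E
  obtain ⟨ys, hys, hα⟩ := hLEX
  obtain ⟨F, hs, hZ, hFF, hGal, hst⟩ := hGCL kk Om (iO sL) FBR_tr (insert ys (E.image iO)) (by
    intro z hz
    rcases Finset.mem_insert.1 hz with rfl | hz'
    · exact FBR_sep _ hys
    · obtain ⟨w, _, rfl⟩ := Finset.mem_image.1 hz'
      exact hSEP w)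
  have hysF : ys ∈ F := hZ (Finset.mem_coe.2 (Finset.mem_insert_self _ _))
  have hEF : ∀ z ∈ E, iO z ∈ F := fun z hz =>
    hZ (Finset.mem_coe.2 (Finset.mem_insert_of_mem (Finset.mem_image_of_mem _ hz)))
  let N : Subfield Lam := F.toSubfield.comap iO
  let ι : N →+* F := (iO.comp N.subtype).codRestrict F (fun x => x.2)
  have hι : ∀ z : N, ((ι z : F) : Om) = iO (z : Lam) := fun z => rfl
  have hsN : sL ∈ N := hs
  refine ⟨F, inferInstance, inferInstance, ⟨iO sL, hs⟩, ⟨ys, hysF⟩, N, ι, hsN, ?_, ?_, ?_, hFF, ?_, hGal, ?_⟩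
  · intro z hz
    exact hEF z hz
  · rfl
  · apply Subtype.ext
    change ys ^ 2 + ys = ((iO sL)⁻¹) ^ 3
    rw [hys]
    unfold thL
    rw [map_pow, map_inv₀]
  · intro halg
    exact FBR_tr (halg.algHom F.val)
  · intro n e he
    have he' : (e : Om) = 0 ∨ (e : Om) = 1 := by
      rcases he with rfl | rfl
      · exact Or.inl rfl
      · exact Or.inr rfl
    obtain ⟨α, a1, a2, a3⟩ := hα n (e : Om) he'
    have b1 : ∀ z ∈ F, α z ∈ F := hst α (a2 sL) (fun c => by
      obtain ⟨c', h1, -⟩ := a1 c
      exact ⟨c', h1⟩)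
    have b2 : ∀ z ∈ F, α.symm z ∈ F := hst α.symm (by rw [RingEquiv.symm_apply_eq, a2]) (fun c =>
      ⟨c ^ (4 ^ n), FBR_symm n α a1 c⟩)
    let β : F ≃+* F :=
      { toFun := fun z => ⟨α z, b1 z z.2⟩
        invFun := fun z => ⟨α.symm z, b2 z z.2⟩
        left_inv := fun z => Subtype.ext (α.symm_apply_apply z)
        right_inv := fun z => Subtype.ext (α.apply_symm_apply z)
        map_mul' := fun x y => Subtype.ext (map_mul α (x : Om) (y : Om))
        map_add' := fun x y => Subtype.ext (map_add α (x : Om) (y : Om)) }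
    refine ⟨β, ?_, ?_, ?_, ?_⟩
    · intro c
      obtain ⟨c', h1, h2⟩ := a1 c
      exact ⟨c', Subtype.ext h1, h2⟩
    · exact Subtype.ext (a2 sL)
    · intro z
      exact Subtype.ext (a2 (z : Lam))
    · exact Subtype.ext a3

end

end MX
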